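import Mathlib
import Pool.Agent.Helper18.RL.Asm

set_option autoImplicit false

/-!
# MP_0c2bb8_co: r-graphs without two disjoint odd cycles (of length at least five) joined by
four disjoint paths are class 1
-/

namespace Pool.Agent.Results.MP_0c2bb8_co.FourLinkedOddCycles

/-- Every `r`-graph (in the convention of `S07131`) that does not contain two vertex-disjoint odd
cycles of length at least five joined by four pairwise vertex-disjoint paths has a proper edge
colouring with `r` colours. -/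
theorem result (V E : Type) [Fintype V] [Fintype E] (ends : E → Sym2 V) (r : ℕ)
    (hl : ∀ e, ¬ (ends e).IsDiag)
    (hr : ∀ v : V, {e : E | v ∈ ends e}.ncard = r)
    (hcut : ∀ X : Finset V, Odd X.card →
      r ≤ {e : E | ∃ u ∈ X, ∃ w ∉ X, ends e = s(u, w)}.ncard)
    (hno : ¬ ∃ (a b : V)
        (p : (SimpleGraph.fromRel (fun u w : V => ∃ e, ends e = s(u, w))).Walk a a)
        (q : (SimpleGraph.fromRel (fun u w : V => ∃ e, ends e = s(u, w))).Walk b b),
      p.IsCycle ∧ q.IsCycle ∧ Odd p.length ∧ Odd q.length ∧ 5 ≤ p.length ∧ 5 ≤ q.length ∧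
      (∀ x, x ∈ p.support → x ∉ q.support) ∧
      ∃ (x y : Fin 4 → V)
        (s : ∀ i, (SimpleGraph.fromRel (fun u w : V => ∃ e, ends e = s(u, w))).Walk (x i) (y i)),
        (∀ i, x i ∈ p.support ∧ y i ∈ q.support) ∧
        ∀ i j, i ≠ j → ∀ z, z ∈ (s i).support → z ∉ (s j).support) :
    ∃ c : E → Fin r, ∀ e₁ e₂ : E, e₁ ≠ e₂ →
      (∃ v, v ∈ ends e₁ ∧ v ∈ ends e₂) → c e₁ ≠ c e₂ :=
  Pool.Agent.Helper18.RL.main Pool.Agent.Helper18.RL.asm.1 Pool.Agent.Helper18.RL.asm.2
    Pool.Agent.Helper83.RL.gmng V E ends r hl hr hcut hno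

end Pool.Agent.Results.MP_0c2bb8_co.FourLinkedOddCycles
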