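import Mathlib
import Pool.Agent.Helper89.RG12.H

set_option autoImplicit false
set_option linter.unusedSectionVars false

namespace Pool.Agent.Results.MP_0c2bb8_co.QuasiFourConnected

open Pool.Agent.Helper37.RG3 Finset

/-- the underlying simple graph of the multigraph with ends `ends` -/
def UG {V E : Type} (ends : E → Sym2 V) : SimpleGraph V :=
  SimpleGraph.fromRel (fun u w : V => ∃ e, ends e = s(u, w))

/-- loopless, `r`-regular, and every odd set of vertices is left by at least `r` edges -/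
def IsRGraph {V E : Type} (ends : E → Sym2 V) (r : ℕ) : Prop :=
  (∀ e, ¬ (ends e).IsDiag) ∧
  (∀ v : V, {e : E | v ∈ ends e}.ncard = r) ∧
  (∀ X : Finset V, Odd X.card → r ≤ {e : E | ∃ u ∈ X, ∃ w ∉ X, ends e = s(u, w)}.ncard)

/-- there is a proper edge colouring with `r` colours -/
def Colourable {V E : Type} (ends : E → Sym2 V) (r : ℕ) : Prop :=
  ∃ c : E → Fin r, ∀ e₁ e₂ : E, e₁ ≠ e₂ → (∃ v, v ∈ ends e₁ ∧ v ∈ ends e₂) → c e₁ ≠ c e₂

/-- the Petersen graph is a minor -/
def PetersenMinor {V E : Type} (ends : E → Sym2 V) : Prop :=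
  ∃ f : {s : Finset (Fin 5) // s.card = 2} → Finset V,
    (∀ i j, i ≠ j → Disjoint (f i) (f j)) ∧
    (∀ i, ((UG ends).induce (↑(f i) : Set V)).Connected) ∧
    (∀ i j, Disjoint i.1 j.1 → ∃ u ∈ f i, ∃ w ∈ f j, (UG ends).Adj u w)

/-- the simple graph `H` is a minor of the simple graph `G` -/
def IsMinor {V' V : Type} (H : SimpleGraph V') (G : SimpleGraph V) : Prop :=
  ∃ f : V' → Finset V,
    (∀ x y, x ≠ y → Disjoint (f x) (f y)) ∧
    (∀ x, (G.induce (↑(f x) : Set V)).Connected) ∧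
    (∀ x y, H.Adj x y → ∃ u ∈ f x, ∃ w ∈ f y, G.Adj u w)

/-- 3-connected and every separation of order three has a side with at most one vertex outside the
separator: a nonempty set `K` with a vertex outside `K ∪ N(K)` has at least three neighbours, and at
least four if `K` and the complement of `K ∪ N(K)` have at least two vertices each -/
def Quasi4Conn {V : Type} (H : SimpleGraph V) : Prop :=
  ∀ K : Finset V,
    (1 ≤ K.card → 1 ≤ {v | v ∉ K ∧ ∀ u ∈ K, ¬ H.Adj u v}.ncard →
      3 ≤ {v | v ∉ K ∧ ∃ u ∈ K, H.Adj u v}.ncard) ∧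
    (2 ≤ K.card → 2 ≤ {v | v ∉ K ∧ ∀ u ∈ K, ¬ H.Adj u v}.ncard →
      4 ≤ {v | v ∉ K ∧ ∃ u ∈ K, H.Adj u v}.ncard)

/-! ### translation -/

theorem adj_iff {V E : Type} [Fintype V] [DecidableEq V] [Fintype E] (ends : E → Sym2 V)
    (hl : ∀ e, ¬ (ends e).IsDiag) (u v : V) : (UG ends).Adj u v ↔ Adj (wt ends) u v := by
  unfold UG
  rw [SimpleGraph.fromRel_adj]
  have key : Adj (wt ends) u v ↔ ∃ e, ends e = s(u, v) := by
    unfold Adj wt
    rw [← Nat.pos_iff_ne_zero, Finset.card_pos]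
    constructor
    · rintro ⟨e, he⟩
      exact ⟨e, by simpa using he⟩
    · rintro ⟨e, he⟩
      exact ⟨e, by simpa using he⟩
  rw [key]
  constructor
  · rintro ⟨-, h | ⟨e, he⟩⟩
    · exact h
    · exact ⟨e, he.trans Sym2.eq_swap⟩
  · rintro ⟨e, he⟩
    refine ⟨?_, Or.inl ⟨e, he⟩⟩
    rintro rfl
    exact hl e (by rw [he]; rfl)

section sub

variable {V : Type} [Fintype V] [DecidableEq V] {U : Finset V} {w : V → V → ℕ} {r : ℕ}

theorem con_map {R : V → V → Prop} {S : Finset {v // v ∈ U}}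
    (h : Con (fun x y : {v // v ∈ U} => R x y) S) :
    Con R (S.map (Function.Embedding.subtype _)) := by
  refine ⟨h.1.map, ?_⟩
  intro P hP hne hPS
  obtain ⟨p, hp, q, hq, hpq⟩ := h.2 (S.filter fun x => x.1 ∈ P) (Finset.filter_subset _ _) (by
    obtain ⟨x, hx⟩ := hne
    obtain ⟨y, hy, hyx⟩ := Finset.mem_map.mp (hP hx)
    exact ⟨y, by
      rw [mem_filter]
      refine ⟨hy, ?_⟩
      have : (y : V) = x := hyx
      rw [this]
      exact hx⟩) (by
    intro he
    apply hPS
    refine Finset.Subset.antisymm hP ?_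
    intro x hx
    obtain ⟨y, hy, hyx⟩ := Finset.mem_map.mp hx
    rw [← he, mem_filter] at hy
    have : (y : V) = x := hyx
    rw [← this]
    exact hy.2)
  rw [mem_filter] at hp
  rw [mem_sdiff, mem_filter] at hq
  refine ⟨p, hp.2, q, ?_, hpq⟩
  rw [mem_sdiff]
  exact ⟨Finset.mem_map.mpr ⟨q, hq.1, rfl⟩, fun hh => hq.2 ⟨hq.1, hh⟩⟩

theorem map_sub (K : Finset {v // v ∈ U}) : K.map (Function.Embedding.subtype _) ⊆ U := by
  intro x hx
  obtain ⟨y, _, hyx⟩ := Finset.mem_map.mp hx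
  have : (y : V) = x := hyx
  rw [← this]
  exact y.2

theorem mem_map' (K : Finset {v // v ∈ U}) (x : {v // v ∈ U}) :
    (x : V) ∈ K.map (Function.Embedding.subtype _) ↔ x ∈ K := by
  constructor
  · intro hx
    obtain ⟨y, hy, hyx⟩ := Finset.mem_map.mp hx
    have : y = x := Subtype.ext hyx
    rw [← this]
    exact hy
  · intro hx
    exact Finset.mem_map.mpr ⟨x, hx, rfl⟩

theorem ncard_nb (h : RG U w r) (K : Finset {v // v ∈ U}) :
    {v : {v // v ∈ U} | v ∉ K ∧ ∃ u ∈ K, w u v ≠ 0}.ncard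
      = (nb (Adj w) (K.map (Function.Embedding.subtype _))).card := by
  classical
  rw [Set.ncard_eq_toFinset_card', ← Finset.card_map (Function.Embedding.subtype _)]
  congr 1
  ext x
  rw [mem_nb]
  constructor
  · intro hx
    obtain ⟨y, hy, hyx⟩ := Finset.mem_map.mp hx
    have hyx' : (y : V) = x := hyx
    rw [Set.mem_toFinset, Set.mem_ofPred_eq] at hy
    obtain ⟨hy1, u, hu, huy⟩ := hy
    rw [← hyx', mem_map']
    exact ⟨hy1, u, (mem_map' K u).mpr hu, huy⟩
  · rintro ⟨hx, s, hs, hsx⟩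
    obtain ⟨u, hu, hus⟩ := Finset.mem_map.mp hs
    have hus' : (u : V) = s := hus
    have hxU : x ∈ U := h.supp' hsx
    refine Finset.mem_map.mpr ⟨⟨x, hxU⟩, ?_, rfl⟩
    rw [Set.mem_toFinset, Set.mem_ofPred_eq]
    refine ⟨fun hh => hx ((mem_map' K ⟨x, hxU⟩).mpr hh), u, hu, ?_⟩
    rw [hus']
    exact hsx

theorem ncard_far (K : Finset {v // v ∈ U}) :
    {v : {v // v ∈ U} | v ∉ K ∧ ∀ u ∈ K, ¬ w u v ≠ 0}.ncard
      = (U \ (K.map (Function.Embedding.subtype _) ∪
        nb (Adj w) (K.map (Function.Embedding.subtype _)))).card := by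
  classical
  rw [Set.ncard_eq_toFinset_card', ← Finset.card_map (Function.Embedding.subtype _)]
  congr 1
  ext x
  rw [mem_sdiff, mem_union, mem_nb]
  constructor
  · intro hx
    obtain ⟨y, hy, hyx⟩ := Finset.mem_map.mp hx
    have hyx' : (y : V) = x := hyx
    rw [Set.mem_toFinset, Set.mem_ofPred_eq] at hy
    obtain ⟨hy1, hy2⟩ := hy
    rw [← hyx', mem_map']
    refine ⟨y.2, ?_⟩
    rintro (h1 | ⟨-, s, hs, hsx⟩)
    · exact hy1 h1
    · obtain ⟨u, hu, hus⟩ := Finset.mem_map.mp hs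
      have hus' : (u : V) = s := hus
      rw [← hus'] at hsx
      exact hy2 u hu hsx
  · rintro ⟨hxU, hx⟩
    rw [not_or] at hx
    refine Finset.mem_map.mpr ⟨⟨x, hxU⟩, ?_, rfl⟩
    rw [Set.mem_toFinset, Set.mem_ofPred_eq]
    refine ⟨fun hh => hx.1 ((mem_map' K ⟨x, hxU⟩).mpr hh), ?_⟩
    intro u hu huw
    exact hx.2 ⟨hx.1, u, (mem_map' K u).mpr hu, huw⟩

end sub

/-- Every class 2 graph without Petersen minor contains a class 2 graph which is
quasi-4-connected, has at least fourteen vertices, no nontrivial tight cut and no removable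
perfect matching. -/
theorem result :
    ∀ (V E : Type) [Fintype V] [Fintype E] (ends : E → Sym2 V) (r : ℕ),
      IsRGraph ends r → ¬ Colourable ends r → ¬ PetersenMinor ends →
      ∃ (V' E' : Type) (_ : Fintype V') (_ : Fintype E') (ends' : E' → Sym2 V') (r' : ℕ),
        r' ≤ r ∧ Fintype.card V' ≤ Fintype.card V ∧ 14 ≤ Fintype.card V' ∧
        IsRGraph ends' r' ∧ ¬ Colourable ends' r' ∧
        IsMinor (UG ends') (UG ends) ∧ ¬ PetersenMinor ends' ∧
        Quasi4Conn (UG ends') ∧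
        (∀ X : Finset V', Odd X.card → 3 ≤ X.card → X.card + 3 ≤ Fintype.card V' →
          r' < {e : E' | ∃ u ∈ X, ∃ w ∉ X, ends' e = s(u, w)}.ncard) ∧
        (∀ M : Set E', (∀ v, ∃! e, e ∈ M ∧ v ∈ ends' e) → ∃ X : Finset V', Odd X.card ∧
          {e : E' | e ∉ M ∧ ∃ u ∈ X, ∃ w ∉ X, ends' e = s(u, w)}.ncard + 1 < r') := by
  intro V E _ _ ends r hR hnc hp
  classical
  obtain ⟨hl, hr, hX⟩ := hR
  obtain ⟨h, hcol⟩ := Pool.Agent.Helper39.RG3.cv1 V E ends r hl hr hX
  have hA := adj_iff ends hl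
  have hGA : (UG ends).Adj = Adj (wt ends) := by
    funext u v
    exact propext (hA u v)
  have hp' : ¬ PetM (Adj (wt ends)) univ := by
    rintro ⟨f, h1, h2, h3⟩
    refine hp ⟨f, h2, ?_, ?_⟩
    · intro i
      rw [Pool.Agent.Helper71.RG3.cnn V _ (f i), hGA]
      exact (h1 i).1
    · intro i j hij
      obtain ⟨u, hu, v, hv, huv⟩ := h3 i j hij
      exact ⟨u, hu, v, hv, (hA u v).mpr huv⟩
  obtain ⟨U, w, s, hsr, hU, hc, hm⟩ := crit h (fun hh => hnc (hcol hh))
  have hpU : ¬ PetM (Adj w) U := fun hh => hp' (PetM.of_mnr (adj_symm h) hm hh)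
  have h14 := Pool.Agent.Helper89.RG12.crit_fourteen hc hpU
  have hrg := hc.rg
  obtain ⟨E', hE', ends', k1, k2, k3, k4, k5⟩ := Pool.Agent.Helper25.RG3.cv2 V U w s hrg
  have hcardU : Fintype.card {v // v ∈ U} = U.card := Fintype.card_coe U
  have hadj : ∀ x y : {v // v ∈ U}, (UG ends').Adj x y ↔ w x y ≠ 0 := by
    intro x y
    unfold UG
    rw [SimpleGraph.fromRel_adj]
    have key : ∀ x y : {v // v ∈ U}, w x y ≠ 0 ↔ ∃ e, ends' e = s(x, y) := by
      intro x y
      rw [← k4 x y, ← Nat.pos_iff_ne_zero, Set.ncard_pos]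
      rfl
    constructor
    · rintro ⟨-, hh | hh⟩
      · exact (key x y).mpr hh
      · rw [hrg.symm]
        exact (key y x).mpr hh
    · intro hh
      refine ⟨?_, Or.inl ((key x y).mp hh)⟩
      rintro rfl
      exact hh (hrg.irr _)
  refine ⟨{v // v ∈ U}, E', inferInstance, hE', ends', s, hsr, ?_, ?_, ⟨k1, k2, ?_⟩, ?_, ?_, ?_,
    ?_, ?_, ?_⟩
  · rw [hcardU]
    exact Finset.card_le_univ U
  · rw [hcardU]
    exact h14
  · intro X ho
    rw [k3]
    exact hrg.cut _ (map_sub X) (by rwa [Finset.card_map])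
  · intro hh
    exact hc.nc (k5 hh)
  · obtain ⟨B, hB1, hB2, hB3⟩ := hm
    refine ⟨fun x => B x, ?_, ?_, ?_⟩
    · intro x y hxy
      exact hB2 x x.2 y y.2 (fun hh => hxy (Subtype.ext hh))
    · intro x
      rw [Pool.Agent.Helper71.RG3.cnn V _ (B x), hGA]
      exact (hB1 x x.2).1
    · intro x y hxy
      obtain ⟨u, hu, v, hv, huv⟩ := hB3 x x.2 y y.2 ((hadj x y).mp hxy)
      exact ⟨u, hu, v, hv, (hA u v).mpr huv⟩
  · rintro ⟨f, h1, h2, h3⟩
    refine hpU ⟨fun i => (f i).map (Function.Embedding.subtype _), ?_, ?_, ?_⟩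
    · intro i
      refine ⟨con_map ?_, map_sub (f i)⟩
      have := (Pool.Agent.Helper71.RG3.cnn {v // v ∈ U} (UG ends') (f i)).mp (h2 i)
      refine Con.mono_rel ?_ this
      intro x y hxy
      exact (hadj x y).mp hxy
    · intro i j hij
      rw [Finset.disjoint_map]
      exact h1 i j hij
    · intro i j hij
      obtain ⟨u, hu, v, hv, huv⟩ := h3 i j hij
      exact ⟨u, (mem_map' _ u).mpr hu, v, (mem_map' _ v).mpr hv, (hadj u v).mp huv⟩
  · -- connectivity
    intro K
    have e1 : {v : {v // v ∈ U} | v ∉ K ∧ ∃ u ∈ K, (UG ends').Adj u v}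
        = {v : {v // v ∈ U} | v ∉ K ∧ ∃ u ∈ K, w u v ≠ 0} := by
      ext v
      simp only [Set.mem_ofPred_eq, hadj]
    have e2 : {v : {v // v ∈ U} | v ∉ K ∧ ∀ u ∈ K, ¬ (UG ends').Adj u v}
        = {v : {v // v ∈ U} | v ∉ K ∧ ∀ u ∈ K, ¬ w u v ≠ 0} := by
      ext v
      simp only [Set.mem_ofPred_eq, hadj]
    rw [e1, e2, ncard_nb hrg K, ncard_far K]
    constructor
    · intro hK1 hf
      refine hc.c3 _ (map_sub K) ?_ ?_
      · rw [← Finset.card_pos, Finset.card_map]
        exact hK1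
      · intro he
        rw [he, Finset.sdiff_self, Finset.card_empty] at hf
        omega
    · intro hK2 hf
      exact hc.i4 _ (map_sub K) (by rwa [Finset.card_map]) hf
  · intro X ho h3 hX3
    rw [k3]
    rw [hcardU] at hX3
    exact hc.nt _ (map_sub X) (by rwa [Finset.card_map]) (by rwa [Finset.card_map])
      (by rwa [Finset.card_map])
  · -- perfect matchings
    intro M hM
    have hother : ∀ x : {v // v ∈ U}, ∃ y : {v // v ∈ U}, ∃ e ∈ M, ends' e = s(x, y) := by
      intro x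
      obtain ⟨e, ⟨he, hxe⟩, -⟩ := hM x
      obtain ⟨y, hy⟩ := Sym2.mem_iff_exists.mp hxe
      exact ⟨y, e, he, hy⟩
    choose m g hg hme using hother
    have huniq : ∀ (x : {v // v ∈ U}) (e : E'), e ∈ M → x ∈ ends' e → e = g x := by
      intro x e he hxe
      obtain ⟨e₀, -, hu⟩ := hM x
      rw [hu e ⟨he, hxe⟩, hu (g x) ⟨hg x, by rw [hme x]; simp⟩]
    have hgm : ∀ x, g (m x) = g x := by
      intro x
      exact (huniq (m x) (g x) (hg x) (by rw [hme x]; simp)).symm
    have hmm : ∀ x, m (m x) = x := by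
      intro x
      have h1 := hme (m x)
      rw [hgm x, hme x, Sym2.eq_swap] at h1
      have h2 := Sym2.congr_right.mp h1
      exact h2.symm
    set μ : V → V := fun v => if hv : v ∈ U then (m ⟨v, hv⟩ : V) else v with hμ
    have hμU : ∀ x : {v // v ∈ U}, μ x = m x := by
      intro x
      simp only [hμ]
      rw [dif_pos x.2]
    have hPM : PM U w μ := by
      refine ⟨?_, ?_, ?_⟩
      · intro u
        by_cases hu : u ∈ U
        · have h1 := hμU ⟨u, hu⟩
          have h2 := hμU (m ⟨u, hu⟩)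
          rw [hmm] at h2
          have h3 : μ u = (m ⟨u, hu⟩ : V) := h1
          rw [h3, h2]
        · have h1 : μ u = u := by
            simp only [hμ]
            rw [dif_neg hu]
          rw [h1, h1]
      · intro u hu
        simp only [hμ]
        rw [dif_neg hu]
      · intro u hu
        have h3 : μ u = (m ⟨u, hu⟩ : V) := hμU ⟨u, hu⟩
        rw [h3, ← k4 ⟨u, hu⟩ (m ⟨u, hu⟩), ← Nat.pos_iff_ne_zero, Set.ncard_pos]
        exact ⟨g ⟨u, hu⟩, hme ⟨u, hu⟩⟩
    obtain ⟨X, hXU, ho, hlt⟩ := hc.bd μ hPM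
    set X' : Finset {v // v ∈ U} := X.subtype (fun v => v ∈ U) with hX'
    have hmap : X'.map (Function.Embedding.subtype _) = X := by
      rw [hX', Finset.subtype_map]
      exact Finset.filter_true_of_mem fun v hv => hXU hv
    have hcard : X'.card = X.card := by
      rw [← hmap, Finset.card_map]
    refine ⟨X', by rwa [hcard], ?_⟩
    have h1 := k3 X'
    rw [hmap] at h1
    -- split the cut
    set D : Set E' := {e : E' | ∃ u ∈ X', ∃ w ∉ X', ends' e = s(u, w)} with hD
    have h2 : {e : E' | e ∉ M ∧ ∃ u ∈ X', ∃ w ∉ X', ends' e = s(u, w)} = D \ M := by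
      ext e
      exact ⟨fun hh => ⟨hh.2, hh.1⟩, fun hh => ⟨hh.2, hh.1⟩⟩
    have h3 : (D \ M).ncard + (D ∩ M).ncard = D.ncard := by
      rw [add_comm]
      exact Set.ncard_inter_add_ncard_sdiff_eq_ncard D M (Set.toFinite D)
    have h4 : (D ∩ M).ncard = cr μ X := by
      unfold cr
      rw [← Set.ncard_coe_finset]
      symm
      refine Set.ncard_congr (fun v hv => g ⟨v, hXU (by
        have := Finset.mem_coe.mp hv
        exact (mem_filter.mp this).1)⟩) ?_ ?_ ?_
      · intro v hv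
        have hv' := mem_filter.mp (Finset.mem_coe.mp hv)
        have hvU : v ∈ U := hXU hv'.1
        refine ⟨⟨⟨v, hvU⟩, ?_, m ⟨v, hvU⟩, ?_, hme ⟨v, hvU⟩⟩, hg _⟩
        · rw [hX', Finset.mem_subtype]
          exact hv'.1
        · rw [hX', Finset.mem_subtype]
          have h5 : μ v = (m ⟨v, hvU⟩ : V) := hμU ⟨v, hvU⟩
          rw [← h5]
          exact hv'.2
      · intro v v' hv hv' heq
        have hv1 := mem_filter.mp (Finset.mem_coe.mp hv)
        have hv2 := mem_filter.mp (Finset.mem_coe.mp hv')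
        have hvU : v ∈ U := hXU hv1.1
        have hvU' : v' ∈ U := hXU hv2.1
        have heq' : g ⟨v, hvU⟩ = g ⟨v', hvU'⟩ := heq
        have h5 := hme ⟨v, hvU⟩
        rw [heq', hme ⟨v', hvU'⟩, Sym2.eq_iff] at h5
        rcases h5 with ⟨h6, -⟩ | ⟨h6, h7⟩
        · exact (congrArg Subtype.val h6).symm
        · exfalso
          apply hv1.2
          have h8 : μ v = (m ⟨v, hvU⟩ : V) := hμU ⟨v, hvU⟩
          rw [h8, ← h6]
          exact hv2.1
      · rintro e ⟨⟨u, hu, v, hv, he⟩, heM⟩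
        have hu' : (u : V) ∈ X := by
          rw [hX', Finset.mem_subtype] at hu
          exact hu
        have hv' : (v : V) ∉ X := by
          rw [hX', Finset.mem_subtype] at hv
          exact hv
        have hge : e = g u := huniq u e heM (by rw [he]; simp)
        have hmu : m u = v := by
          have h5 := hme u
          rw [← hge, he] at h5
          exact (Sym2.congr_right.mp h5).symm
        refine ⟨u, ?_, ?_⟩
        · rw [Finset.mem_coe, mem_filter]
          refine ⟨hu', ?_⟩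
          rw [hμU u, hmu]
          exact hv'
        · rw [hge]
    rw [h2]
    omega

end Pool.Agent.Results.MP_0c2bb8_co.QuasiFourConnected
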