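import Mathlib
import Pool.Agent.Helper89.RG12.H

set_option autoImplicit false

namespace Pool.Agent.Results.MP_0c2bb8_co.SmallBags

open Pool.Agent.Helper37.RG3 Finset

theorem adj_iff {V E : Type} [Fintype V] [DecidableEq V] [Fintype E] (ends : E → Sym2 V)
    (hl : ∀ e, ¬ (ends e).IsDiag) (u v : V) :
    (SimpleGraph.fromRel (fun u w : V => ∃ e, ends e = s(u, w))).Adj u v ↔
      Adj (wt ends) u v := by
  rw [SimpleGraph.fromRel_adj]
  have key : Adj (wt ends) u v ↔ ∃ e, ends e = s(u, v) := by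
    unfold Adj wt
    rw [← Nat.pos_iff_ne_zero, Finset.card_pos]
    constructor
    · rintro ⟨e, he⟩
      exact ⟨e, by simpa using he⟩
    · rintro ⟨e, he⟩
      exact ⟨e, by simpa using he⟩
  rw [key]
  constructor
  · rintro ⟨-, h | ⟨e, he⟩⟩
    · exact h
    · exact ⟨e, he.trans Sym2.eq_swap⟩
  · rintro ⟨e, he⟩
    refine ⟨?_, Or.inl ⟨e, he⟩⟩
    rintro rfl
    exact hl e (by rw [he]; rfl)

/-- Petersen-minor-free `r`-graphs with a tree decomposition of adhesion at most three and bags of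
size at most seven are class 1. -/
theorem result :
    ∀ (V E : Type) [Fintype V] [Fintype E] (ends : E → Sym2 V) (r : ℕ),
      (∀ e, ¬ (ends e).IsDiag) →
      (∀ v : V, {e : E | v ∈ ends e}.ncard = r) →
      (∀ X : Finset V, Odd X.card →
        r ≤ {e : E | ∃ u ∈ X, ∃ w ∉ X, ends e = s(u, w)}.ncard) →
      (¬ ∃ f : {s : Finset (Fin 5) // s.card = 2} → Finset V,
          (∀ i j, i ≠ j → Disjoint (f i) (f j)) ∧
          (∀ i, ((SimpleGraph.fromRel (fun u w : V => ∃ e, ends e = s(u, w))).induce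
                  (↑(f i) : Set V)).Connected) ∧
          (∀ i j, Disjoint i.1 j.1 → ∃ u ∈ f i, ∃ w ∈ f j,
              (SimpleGraph.fromRel (fun u w : V => ∃ e, ends e = s(u, w))).Adj u w)) →
      (∃ (ι : Type) (T : SimpleGraph ι) (β : ι → Set V), Finite ι ∧ T.IsTree ∧
        (∀ v, ∃ t, v ∈ β t) ∧ (∀ e, ∃ t, ∀ v ∈ ends e, v ∈ β t) ∧
        (∀ v, (T.induce {t | v ∈ β t}).Preconnected) ∧
        (∀ t, (β t).ncard ≤ 7) ∧ (∀ s t, T.Adj s t → (β s ∩ β t).ncard ≤ 3)) →
      ∃ c : E → Fin r, ∀ e₁ e₂ : E, e₁ ≠ e₂ →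
        (∃ v, v ∈ ends e₁ ∧ v ∈ ends e₂) → c e₁ ≠ c e₂ := by
  intro V E _ _ ends r hl hr hX hp ⟨ι, T, β, hfin, hT, hcov, hedge, hconn, hbag, hadh⟩
  classical
  obtain ⟨h, hcol⟩ := Pool.Agent.Helper39.RG3.cv1 V E ends r hl hr hX
  apply hcol
  have hA := adj_iff ends hl
  have hGA : (SimpleGraph.fromRel (fun u w : V => ∃ e, ends e = s(u, w))).Adj
      = Adj (wt ends) := by
    funext u v
    exact propext (hA u v)
  have hp' : ¬ PetM (Adj (wt ends)) univ := by
    rintro ⟨f, h1, h2, h3⟩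
    refine hp ⟨f, h2, ?_, ?_⟩
    · intro i
      rw [Pool.Agent.Helper71.RG3.cnn V _ (f i), hGA]
      exact (h1 i).1
    · intro i j hij
      obtain ⟨u, hu, v, hv, huv⟩ := h3 i j hij
      exact ⟨u, hu, v, hv, (hA u v).mpr huv⟩
  refine Pool.Agent.Helper89.RG12.small_bags (ι := ι) (T := T) (β := fun t => (β t).toFinset) h hp' ?_
  refine ⟨hT, fun t => Finset.subset_univ _, ?_, ?_, ?_, ?_, ?_⟩
  · intro v _
    obtain ⟨t, ht⟩ := hcov v
    exact ⟨t, by simpa using ht⟩
  · intro u v huv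
    rw [← hA, SimpleGraph.fromRel_adj] at huv
    obtain ⟨-, ⟨e, he⟩ | ⟨e, he⟩⟩ := huv
    · obtain ⟨t, ht⟩ := hedge e
      refine ⟨t, ?_, ?_⟩
      · simpa using ht u (by rw [he]; simp)
      · simpa using ht v (by rw [he]; simp)
    · obtain ⟨t, ht⟩ := hedge e
      refine ⟨t, ?_, ?_⟩
      · simpa using ht u (by rw [he]; simp)
      · simpa using ht v (by rw [he]; simp)
  · intro v
    have he : {t | v ∈ (β t).toFinset} = {t | v ∈ β t} := by
      ext t
      simp
    rw [he]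
    exact hconn v
  · intro t
    have := hbag t
    rwa [Set.ncard_eq_toFinset_card'] at this
  · intro s t hst
    have := hadh s t hst
    rw [Set.ncard_eq_toFinset_card'] at this
    have he : (β s).toFinset ∩ (β t).toFinset = (β s ∩ β t).toFinset := by
      ext v
      simp
    rw [he]
    exact this

end Pool.Agent.Results.MP_0c2bb8_co.SmallBags
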