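import Mathlib
import Pool.Agent.Helper89.TS.Final

set_option autoImplicit false

namespace Pool.Agent.Results.MP_0c2bb8_co.TwoFamilies

open Pool.Agent.Helper89.TS Pool.Agent.Helper51.RG

theorem result : ∀ (V E : Type) [Fintype V] [Fintype E] (ends : E → Sym2 V) (r : ℕ),
    (∀ e, ¬ (ends e).IsDiag) →
    (∀ v : V, {e : E | v ∈ ends e}.ncard = r) →
    (∀ X : Finset V, Odd X.card →
      r ≤ {e : E | ∃ u ∈ X, ∃ w ∉ X, ends e = s(u, w)}.ncard) →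
    (∃ (F₁ F₂ : Set E) (A : Set V),
      (∀ e ∈ F₁, ∀ f ∈ F₁, ∃ v, v ∈ ends e ∧ v ∈ ends f) ∧
      (∀ e ∈ F₂, ∀ f ∈ F₂, ∃ v, v ∈ ends e ∧ v ∈ ends f) ∧
      ∀ e, e ∉ F₁ → e ∉ F₂ → ∃ u ∈ A, ∃ w ∉ A, ends e = s(u, w)) →
    ∃ c : E → Fin r, ∀ e₁ e₂ : E, e₁ ≠ e₂ →
      (∃ v, v ∈ ends e₁ ∧ v ∈ ends e₂) → c e₁ ≠ c e₂ := by
  classical
  intro V E _ _ ends r hl hr hcut ⟨F₁, F₂, A, h1, h2, h3⟩
  refine twoFam ends hl ?_ ?_ (fun v => v ∈ A) (fun e => e ∈ F₁) ?_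
  · intro v
    rw [← hr v, Set.ncard_eq_toFinset_card']
    congr 1
    ext e
    simp
  · intro X hX
    refine (hcut X hX).trans (le_of_eq ?_)
    rw [Set.ncard_eq_toFinset_card']
    congr 1
    ext e
    simp
  · have key : ∀ e, Mono ends (fun v => v ∈ A) e → e ∉ F₁ → e ∈ F₂ := by
      intro e he he1
      by_contra he2
      obtain ⟨u, hu, w, hw, huw⟩ := h3 e he1 he2
      exact hw (((mono_iff huw).1 he).1 hu)
    intro e f he hf hef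
    by_cases h : e ∈ F₁
    · exact h1 e h f (hef.1 h)
    · exact h2 e (key e he h) f (key f hf fun h' => h (hef.2 h'))

end Pool.Agent.Results.MP_0c2bb8_co.TwoFamilies
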